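import Pool.Agent.Helper73.QX.GeoDeg
import Pool.Agent.Helper73.QX.Good

/-!
# The first cohomology of the curve `u ^ p - u = s ^ 2` (`p` odd), `u ^ 2 - u = s ^ 3` (`p = 2`)

It is a curve of the form `s ^ n = v ^ α * (1 - v) ^ β`, and so its first cohomology is not zero.
There is no class which is invariant under `σ : u ↦ u + 1`, and the automorphisms `u ↦ a u` permute
the nontrivial eigenvalues of `σ`.
-/

set_option autoImplicit false

open IntermediateField Module

namespace Pool.Agent.Helper35.WW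

open Pool.Agent.Helper75.QC Pool.Agent.Helper73.QX

variable {p : ℕ} [hp : Fact p.Prime] {Ω L : Type} [Field Ω] [IsAlgClosed Ω] [Algebra (ZMod p) Ω]
  [Field L] [CharZero L] [IsAlgClosed L]

omit [IsAlgClosed Ω] in
/-- the universal property -/
theorem exists_hom_curve {m : ℕ} (hm : m.Prime) {C : Type} [Field C] [Algebra Ω C] (u s : C)
    (hu : Transcendental Ω u) (hs : u ^ p - u = s ^ m) (hC : adjoin Ω {u, s} = ⊤)
    (E : Type) [Field E] [Algebra Ω E] (u' s' : E) (hu' : Transcendental Ω u')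
    (hs' : u' ^ p - u' = s' ^ m) : ∃ τ : C →ₐ[Ω] E, τ u = u' ∧ τ s = s' := by
  obtain ⟨C0, N, iC, jC, iN, jN, u0, s0, a, b, hu0, hs0, hCt, hb, hN, huniv⟩ :=
    exists_as_curve p (Ω := Ω) hm C
  obtain ⟨j, hj1, hj2⟩ := huniv C u s hu hs
  have hsurj : Function.Surjective j := by
    intro c
    have h1 : (⊤ : IntermediateField Ω C) ≤ j.fieldRange := by
      rw [← hC, adjoin_le_iff]
      rintro c (rfl | rfl)
      · exact ⟨u0, hj1⟩
      · exact ⟨s0, hj2⟩
    exact h1 (mem_top (x := c))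
  obtain ⟨τ, h1, h2⟩ := huniv E u' s' hu' hs'
  let e : C0 ≃ₐ[Ω] C := AlgEquiv.ofBijective j ⟨j.injective, hsurj⟩
  have e1 : e.symm u = u0 := by
    rw [AlgEquiv.symm_apply_eq]
    exact hj1.symm
  have e2 : e.symm s = s0 := by
    rw [AlgEquiv.symm_apply_eq]
    exact hj2.symm
  refine ⟨τ.comp e.symm.toAlgHom, ?_, ?_⟩
  · show τ (e.symm u) = u'
    rw [e1, h1]
  · show τ (e.symm s) = s'
    rw [e2, h2]

/-- the first cohomology is not zero -/
theorem exists_ne_zero (T : BaseTheory Ω L) {C : Type} [Field C] [Algebra Ω C] (u s : C)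
    (hu : Transcendental Ω u) (hs : u ^ p - u = s ^ aux p) (hC : adjoin Ω {u, s} = ⊤) :
    ∃ z : T.H 1 C, z ≠ 0 := by
  have hchΩ := charP_of p Ω Ω
  have hchC := charP_of p Ω C
  by_cases hp2 : p = 2
  · subst hp2
    have haux : aux 2 = 3 := rfl
    have h3 : ((3 : ℕ) : Ω) ≠ 0 := by
      rw [Ne, CharP.cast_eq_zero_iff Ω 2]
      norm_num
    have : NeZero ((3 : ℕ) : Ω) := ⟨h3⟩
    have : NeZero ((3 : ℕ) : L) := ⟨by norm_num⟩
    obtain ⟨ζ, hζ⟩ := HasEnoughRootsOfUnity.exists_primitiveRoot Ω 3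
    obtain ⟨ξ, hξ⟩ := HasEnoughRootsOfUnity.exists_primitiveRoot L 3
    rw [haux] at hs
    obtain ⟨σ, h1, h2⟩ := exists_hom_curve (p := 2) Nat.prime_three u s hu hs hC C u
      (algebraMap Ω C ζ * s) hu (by rw [hs, mul_pow, ← map_pow, hζ.pow_eq_one, map_one, one_mul])
    obtain ⟨z, hz, -⟩ := T.curve C 3 1 1 ζ u s σ h3 hζ hu (by
        rw [← hs]
        have h4 : (2 : C) = 0 := by
          have := CharP.cast_eq_zero C 2
          exact_mod_cast this
        linear_combination (u ^ 2 - u) * h4) hC h1 h2 ξ hξ.pow_eq_one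
        (by
          rw [pow_one]
          exact hξ.ne_one (by norm_num))
        (by
          rw [pow_one]
          exact hξ.ne_one (by norm_num))
        (hξ.pow_ne_one_of_pos_of_lt (by norm_num) (by norm_num))
    exact ⟨z, hz⟩
  · have haux : aux p = 2 := if_neg hp2
    rw [haux] at hs
    have hp3 : 3 ≤ p := by
      have := hp.out.two_le
      omega
    have hodd : Odd p := hp.out.odd_of_ne_two hp2
    obtain ⟨k, hk⟩ := hodd
    have hk1 : 1 ≤ k := by omega
    obtain ⟨n, hn⟩ : ∃ n, n = 2 * (2 * k) := ⟨_, rfl⟩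
    have h2Ω : (2 : Ω) ≠ 0 := by
      have : ((2 : ℕ) : Ω) ≠ 0 := by
        rw [Ne, CharP.cast_eq_zero_iff Ω p]
        intro h
        have := Nat.le_of_dvd (by norm_num) h
        omega
      exact_mod_cast this
    have hn0 : (n : Ω) ≠ 0 := by
      have h1 : ((2 * k + 1 : ℕ) : Ω) = 0 := by
        rw [← hk]
        exact CharP.cast_eq_zero Ω p
      have h2 : ((2 * k : ℕ) : Ω) = -1 := by
        push_cast at h1 ⊢
        linear_combination h1
      rw [hn, Nat.cast_mul, h2]
      simpa using h2Ω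
    have : NeZero ((n : ℕ) : Ω) := ⟨hn0⟩
    obtain ⟨ζ, hζ⟩ := HasEnoughRootsOfUnity.exists_primitiveRoot Ω n
    obtain ⟨v, hv⟩ : ∃ v : C, v = u ^ (2 * k) := ⟨_, rfl⟩
    have hv1 : u * (v - 1) = s ^ 2 := by
      rw [← hs, hv, hk]
      ring
    have hζ1 : (ζ ^ 2) ^ (2 * k) = 1 := by
      rw [← pow_mul, ← hn, hζ.pow_eq_one]
    have hζ0 : ζ ≠ 0 := hζ.ne_zero (by omega)
    have hζC : algebraMap Ω C ζ ≠ 0 := (map_ne_zero _).2 hζ0
    have hζC1 : (algebraMap Ω C ζ ^ 2) ^ (2 * k) = 1 := by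
      rw [← map_pow, ← map_pow, hζ1, map_one]
    obtain ⟨σ, h1, h2⟩ := exists_hom_curve (p := p) Nat.prime_two u s hu hs hC C
      (algebraMap Ω C (ζ ^ 2) * u) (algebraMap Ω C ζ * s) (by
        intro h
        apply hu
        have h3 : IsAlgebraic Ω (algebraMap Ω C (ζ ^ 2)⁻¹) := isAlgebraic_algebraMap _
        have h4 := h3.mul h
        rwa [← mul_assoc, ← map_mul, inv_mul_cancel₀ (pow_ne_zero 2 hζ0), map_one, one_mul] at h4)
        (by
          rw [map_pow, mul_pow, mul_pow, ← hs, hk, pow_succ _ (2 * k), hζC1]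
          ring)
    have hvt : Transcendental Ω v := by
      rw [hv]
      intro h
      exact hu (IsAlgebraic.of_pow (by omega) h)
    obtain ⟨ξ, hξ⟩ := IsAlgClosed.exists_pow_nat_eq (-1 : L) (show 0 < 2 * k by omega)
    have hneg : (-1 : L) ≠ 1 := by
      intro h
      have h3 : (2 : L) = 0 := by linear_combination -h
      exact two_ne_zero h3
    have hv0 : v - 1 ≠ 0 := by
      intro h
      apply hvt
      rw [sub_eq_zero.1 h]
      exact isAlgebraic_one
    obtain ⟨z, hz, -⟩ := T.curve C n 1 (2 * k) ζ v s σ hn0 hζ hvt (by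
        rw [hn, pow_mul, ← hv1, pow_one, mul_pow, ← hv]
        congr 1
        have h3 : Even (2 * k) := even_two_mul k
        rw [← h3.neg_pow, neg_sub]) (by
        rw [eq_top_iff, ← hC, adjoin_le_iff]
        have hvm : v ∈ adjoin Ω {v, s} := subset_adjoin _ _ (by simp)
        have hsm : s ∈ adjoin Ω {v, s} := subset_adjoin _ _ (by simp)
        have hum : u ∈ adjoin Ω {v, s} := by
          have h3 : u = s ^ 2 / (v - 1) := by
            rw [← hv1]
            field_simp
          rw [h3]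
          exact div_mem (pow_mem hsm 2) (sub_mem hvm (one_mem _))
        rintro c (rfl | hc)
        · exact hum
        · rw [Set.mem_singleton_iff] at hc
          rw [hc]
          exact hsm) (by
        rw [hv, map_pow, h1, mul_pow, map_pow, hζC1, one_mul]) h2 ξ (by
        rw [hn, mul_comm, pow_mul, hξ]
        norm_num) (by
        rw [pow_one]
        rintro rfl
        rw [one_pow] at hξ
        exact hneg hξ.symm) (by
        rw [hξ]
        exact hneg) (by
        rw [pow_add, pow_one, hξ]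
        intro h
        have h3 : ξ = -1 := by linear_combination -h
        rw [h3, (even_two_mul k).neg_one_pow] at hξ
        exact hneg hξ.symm)
    exact ⟨z, hz⟩

omit [IsAlgClosed Ω] [CharZero L] [IsAlgClosed L] in
/-- there are no invariant classes -/
theorem eq_zero_of_fixed (T : BaseTheory Ω L) {m : ℕ} {C : Type} [Field C] [Algebra Ω C] (u s : C)
    (hs : u ^ p - u = s ^ m) (hC : adjoin Ω {u, s} = ⊤) (σ : C →ₐ[Ω] C) (hσu : σ u = u + 1)
    (hσs : σ s = s) (z : T.H 1 C) (hz : T.map 1 σ z = z) : z = 0 := by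
  obtain ⟨N, hN⟩ : ∃ N : IntermediateField Ω C, N = adjoin Ω {s} := ⟨_, rfl⟩
  have hsN : s ∈ N := by
    rw [hN]
    exact subset_adjoin _ _ rfl
  obtain ⟨g1, g2⟩ := galois_of (p := p) (Ω := Ω) (fun _ : Fin 1 => u) N (fun _ => by
      rw [hs]
      exact pow_mem hsN m) (by
      intro M hM hu
      rw [eq_top_iff, ← hC, adjoin_le_iff]
      rintro c (rfl | hc)
      · exact hu 0
      · rw [Set.mem_singleton_iff] at hc
        rw [hc]
        exact hM hsN)
  have hpow : ∀ n : ℕ, (σ ^ n) u = u + (n : C) ∧ (σ ^ n) s = s ∧ T.map 1 (σ ^ n) z = z := by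
    intro n
    induction n with
    | zero =>
      refine ⟨by simp, by simp, ?_⟩
      rw [pow_zero]
      exact LinearMap.congr_fun (T.map_id 1 C) z
    | succ n ih =>
      refine ⟨?_, ?_, ?_⟩
      · rw [pow_succ', AlgHom.mul_apply, ih.1, map_add, map_natCast, hσu]
        push_cast
        ring
      · rw [pow_succ', AlgHom.mul_apply, ih.2.1, hσs]
      · have h5 : T.map 1 (σ ^ (n + 1)) z = T.map 1 σ (T.map 1 (σ ^ n) z) := by
          rw [pow_succ']
          exact LinearMap.congr_fun (T.map_comp 1 (σ ^ n) σ) z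
        rw [h5, ih.2.2, hz]
  obtain ⟨w, hw⟩ := T.descent 1 C N z (by
    intro τ
    obtain ⟨τ', hτ'⟩ : ∃ τ' : C →ₐ[Ω] C, τ' = τ.restrictScalars Ω := ⟨_, rfl⟩
    have hfix : τ' s = s := by
      rw [hτ']
      exact τ.commutes ⟨s, hsN⟩
    obtain ⟨c, hc⟩ := exists_em_of_eq p Ω (z := τ' u) (w := u) (by
      rw [← map_pow, ← map_sub, hs, map_pow, hfix])
    have h5 : τ' = σ ^ c.val := by
      refine Pool.Agent.Helper75.QC.hom_ext {u, s} hC _ _ ?_
      rintro e (rfl | he)
      · rw [hc, (hpow _).1]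
        congr 1
        have h6 : em p Ω C c = em p Ω C ((c.val : ℕ) : ZMod p) := by
          rw [ZMod.natCast_val, ZMod.cast_id]
        rw [h6, map_natCast]
      · rw [Set.mem_singleton_iff] at he
        rw [he, (hpow _).2.1, hfix]
    rw [← hτ', h5]
    exact (hpow _).2.2)
  have hU : Uniruled Ω N 1 := by
    refine ⟨N, inferInstance, inferInstance, AlgHom.id Ω N, ∅, ⟨s, hsN⟩, by simp, ?_⟩
    intro k
    rw [Finset.coe_empty]
    have h1 : (⊤ : IntermediateField Ω N) ≤ adjoin Ω {(⟨s, hsN⟩ : N)} := by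
      have h2 : (adjoin Ω {(⟨s, hsN⟩ : N)}).map N.val = N := by
        rw [adjoin_map, Set.image_singleton]
        exact hN.symm
      intro a _
      have h3 : (a : C) ∈ (adjoin Ω {(⟨s, hsN⟩ : N)}).map N.val := by
        rw [h2]
        exact a.2
      obtain ⟨b, hb, hb'⟩ := h3
      have h4 : b = a := Subtype.ext hb'
      rwa [← h4]
    exact adjoin.mono Ω _ _ Set.subset_union_right (h1 (mem_top (x := k)))
  rw [← hw, T.uniruled 1 N hU w, map_zero]

/-- the representation of the group of automorphisms `u ↦ u + c` -/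
theorem wildCurve_aux (T : BaseTheory Ω L) : WildCurve p (aux p) T.toCohomology := by
  intro C _ _ u s σ hu hs hC hσu hσs ξ hξ hξ1
  have hm := aux_prime p
  have hfin : (⊤ : IntermediateField Ω C).FG := by
    rw [← hC]
    exact fg_adjoin_of_finite (Set.toFinite _)
  have : FiniteDimensional L (T.H 1 C) := T.fin 1 C hfin
  obtain ⟨z0, hz0⟩ := exists_ne_zero T u s hu hs hC
  have : Nontrivial (T.H 1 C) := ⟨z0, 0, hz0⟩
  obtain ⟨ξ0, hξ0⟩ := Module.End.exists_eigenvalue (T.map 1 σ : Module.End L (T.H 1 C))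
  obtain ⟨z1, hz1⟩ := hξ0.exists_hasEigenvector
  have hz1' : T.map 1 σ z1 = ξ0 • z1 := hz1.apply_eq_smul
  have hz10 : z1 ≠ 0 := hz1.2
  have hpow : ∀ n : ℕ, (σ ^ n) u = u + (n : C) ∧ (σ ^ n) s = s ∧
      T.map 1 (σ ^ n) z1 = ξ0 ^ n • z1 := by
    intro n
    induction n with
    | zero =>
      refine ⟨by simp, by simp, ?_⟩
      rw [pow_zero, pow_zero, one_smul]
      exact LinearMap.congr_fun (T.map_id 1 C) z1
    | succ n ih =>
      refine ⟨?_, ?_, ?_⟩
      · rw [pow_succ', AlgHom.mul_apply, ih.1, map_add, map_natCast, hσu]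
        push_cast
        ring
      · rw [pow_succ', AlgHom.mul_apply, ih.2.1, hσs]
      · have h5 : T.map 1 (σ ^ (n + 1)) z1 = T.map 1 σ (T.map 1 (σ ^ n) z1) := by
          rw [pow_succ']
          exact LinearMap.congr_fun (T.map_comp 1 (σ ^ n) σ) z1
        rw [h5, ih.2.2, map_smul, hz1', smul_smul, pow_succ]
  have hchC := charP_of p Ω C
  have hξ0p : ξ0 ^ p = 1 := by
    have h1 : σ ^ p = AlgHom.id Ω C := by
      refine Pool.Agent.Helper75.QC.hom_ext {u, s} hC _ _ ?_
      rintro e (rfl | he)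
      · rw [(hpow p).1, CharP.cast_eq_zero, add_zero]
        rfl
      · rw [Set.mem_singleton_iff] at he
        rw [he, (hpow p).2.1]
        rfl
    have h2 := (hpow p).2.2
    rw [h1] at h2
    have h3 : T.map 1 (AlgHom.id Ω C) z1 = z1 := LinearMap.congr_fun (T.map_id 1 C) z1
    rw [h3] at h2
    have h4 : (ξ0 ^ p - 1) • z1 = 0 := by
      rw [sub_smul, one_smul, ← h2, sub_self]
    exact sub_eq_zero.1 ((smul_eq_zero.1 h4).resolve_right hz10)
  have hξ01 : ξ0 ≠ 1 := by
    rintro rfl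
    rw [one_smul] at hz1'
    exact hz10 (eq_zero_of_fixed T u s hs hC σ hσu hσs z1 hz1')
  have hprim : IsPrimitiveRoot ξ0 p := by
    have h1 : orderOf ξ0 = p := orderOf_eq_prime hξ0p hξ01
    rw [← h1]
    exact IsPrimitiveRoot.orderOf ξ0
  obtain ⟨a, ha, ha'⟩ := hprim.eq_pow_of_pow_eq_one hξ
  have ha0 : a ≠ 0 := by
    rintro rfl
    rw [pow_zero] at ha'
    exact hξ1 ha'.symm
  have haΩ : (a : Ω) ≠ 0 := by
    have := charP_of p Ω Ω
    rw [Ne, CharP.cast_eq_zero_iff Ω p]
    intro h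
    exact absurd (Nat.le_of_dvd (Nat.pos_of_ne_zero ha0) h) (by omega)
  have haC : (a : C) ≠ 0 := by
    rw [← map_natCast (algebraMap Ω C)]
    exact (map_ne_zero _).2 haΩ
  obtain ⟨b, hb⟩ := IsAlgClosed.exists_pow_nat_eq (a : Ω) hm.pos
  have hap : (a : C) ^ p = a := by
    have h1 : em p Ω C (a : ZMod p) = (a : C) := map_natCast _ _
    rw [← h1]
    exact em_pow p Ω C _
  obtain ⟨τ, h1, h2⟩ := exists_hom_curve (p := p) hm u s hu hs hC C ((a : C) * u)
    (algebraMap Ω C b * s) (by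
      intro h
      apply hu
      have h3 : IsAlgebraic Ω (algebraMap Ω C (a : Ω)⁻¹) := isAlgebraic_algebraMap _
      have h4 := h3.mul h
      rwa [← map_natCast (algebraMap Ω C), ← mul_assoc, ← map_mul, inv_mul_cancel₀ haΩ, map_one,
        one_mul] at h4) (by
      rw [mul_pow, mul_pow, ← map_pow, hb, map_natCast, hap, ← hs]
      ring)
  refine ⟨T.map 1 τ z1, ?_, ?_⟩
  · intro h
    apply hz10
    have hinj : Function.Injective (T.map 1 τ) := by
      refine T.inj 1 τ fun c => ?_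
      have hsurj : (⊤ : IntermediateField Ω C) ≤ τ.fieldRange := by
        rw [← hC, adjoin_le_iff]
        have hb0 : algebraMap Ω C b ≠ 0 := by
          rw [Ne, map_eq_zero]
          rintro rfl
          rw [zero_pow hm.pos.ne'] at hb
          exact haΩ hb.symm
        rintro c (rfl | hc)
        · have h3 : (a : C) * c ∈ τ.fieldRange := ⟨c, h1⟩
          have h4 := mul_mem (inv_mem (_root_.natCast_mem τ.fieldRange a)) h3
          rwa [← mul_assoc, inv_mul_cancel₀ haC, one_mul] at h4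
        · rw [Set.mem_singleton_iff] at hc
          rw [hc]
          have h3 : algebraMap Ω C b * s ∈ τ.fieldRange := ⟨s, h2⟩
          have h4 := mul_mem (inv_mem (τ.fieldRange.algebraMap_mem b)) h3
          rwa [← mul_assoc, inv_mul_cancel₀ hb0, one_mul] at h4
      exact isAlgebraic_algebraMap (⟨c, hsurj (mem_top (x := c))⟩ : τ.fieldRange)
    exact hinj (by rw [h, map_zero])
  · have h3 : σ.comp τ = τ.comp (σ ^ a) := by
      refine Pool.Agent.Helper75.QC.hom_ext {u, s} hC _ _ ?_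
      rintro e (rfl | he)
      · rw [AlgHom.comp_apply, AlgHom.comp_apply, h1, map_mul, map_natCast, hσu, (hpow a).1,
          map_add, map_natCast, h1]
        ring
      · rw [Set.mem_singleton_iff] at he
        rw [he, AlgHom.comp_apply, AlgHom.comp_apply, h2, map_mul, hσs, (hpow a).2.1, h2,
          AlgHom.commutes]
    have h4 : T.map 1 σ (T.map 1 τ z1) = T.map 1 (σ.comp τ) z1 :=
      (LinearMap.congr_fun (T.map_comp 1 τ σ) z1).symm
    have h5 : T.map 1 (τ.comp (σ ^ a)) z1 = T.map 1 τ (T.map 1 (σ ^ a) z1) :=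
      LinearMap.congr_fun (T.map_comp 1 (σ ^ a) τ) z1
    show T.map 1 σ (T.map 1 τ z1) = ξ • T.map 1 τ z1
    rw [h4, h3, h5, (hpow a).2.2, map_smul, ha']

end Pool.Agent.Helper35.WW
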