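import Pool.Agent.Helper73.QX.Galois
import Pool.Agent.Helper35.WW.Curve

/-!
# Tate classes on the coverings `w_i ^ p - w_i = f_i (x, y) / g (x, y) ^ 2`
-/

set_option autoImplicit false

open IntermediateField MvPolynomial

namespace Pool.Agent.Helper35.WW

open Pool.Agent.Helper75.QC Pool.Agent.Helper73.QX Pool.Agent.Helper35.TD

/-- the linear combinations of the `f_i` -/
theorem geo_comb {p : ℕ} [hp : Fact p.Prime] {Ω : Type} [Field Ω] [IsAlgClosed Ω]
    [Algebra (ZMod p) Ω] {K : Type} [Field K] [Algebra Ω K] {a b d e r : ℕ}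
    {f : Fin r → MvPolynomial (Fin 2) Ω} {g : MvPolynomial (Fin 2) Ω} {x y : K} {w : Fin r → K}
    (hab : 0 < a + b) (hf : ∀ i, ∀ m ∈ (f i).support, a * m 0 + b * m 1 ≤ d)
    (hg : ∀ m ∈ g.support, a * m 0 + b * m 1 ≤ e) (he : e ≤ a + b)
    (hd : (max p 3 - 2) * d + 4 * e ≤ 2 * max p 3 * (a + b)) (hg0 : aeval ![x, y] g ≠ 0)
    (hw : ∀ i, (w i ^ p - w i) * aeval ![x, y] g ^ 2 = aeval ![x, y] (f i))
    (k : Fin r → ZMod p) : Geo Ω p (aux p) x y (comb p Ω k fun i => w i ^ p - w i) := by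
  have h2 : p = 2 ∨ (2 : Ω) ≠ 0 := by
    by_cases h : p = 2
    · exact Or.inl h
    · right
      have := charP_of p Ω Ω
      have h3 : ((2 : ℕ) : Ω) ≠ 0 := by
        rw [Ne, CharP.cast_eq_zero_iff Ω p]
        intro h4
        have := Nat.le_of_dvd (by norm_num) h4
        have := hp.out.two_le
        omega
      exact_mod_cast h3
  refine geo_of_degree hp.out h2 a b d e hab
    (∑ i, C (algebraMap (ZMod p) Ω (k i)) * f i) g ?_ hg he hd hg0 ?_
  · intro m hm
    obtain ⟨i, -, hi⟩ := Finset.mem_biUnion.1 (support_sum hm)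
    refine hf i m ?_
    rw [mem_support_iff] at hi ⊢
    intro h
    apply hi
    rw [coeff_C_mul, h, mul_zero]
  · unfold comb
    rw [Finset.sum_mul, map_sum]
    refine Finset.sum_congr rfl fun i _ => ?_
    rw [map_mul, aeval_C, ← hw i, ← mul_assoc]
    rfl

theorem noTate_wild {p : ℕ} [hp : Fact p.Prime] {F Ω L : Type} [Field F] [Field Ω] [CharP Ω p]
    [Algebra F Ω] [Algebra.IsAlgebraic F Ω] [IsAlgClosed Ω] [Field L] [CharZero L] [IsAlgClosed L]
    (T : GaloisTheory F Ω L) {K : Type} [Field K] [Algebra Ω K]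
    (hK : ∃ (a b d e r : ℕ) (f : Fin r → MvPolynomial (Fin 2) Ω) (g : MvPolynomial (Fin 2) Ω)
      (x y : K) (w : Fin r → K), 0 < a + b ∧
      (∀ i, ∀ m ∈ (f i).support, a * m 0 + b * m 1 ≤ d) ∧
      (∀ m ∈ g.support, a * m 0 + b * m 1 ≤ e) ∧ e ≤ a + b ∧
      (max p 3 - 2) * d + 4 * e ≤ 2 * max p 3 * (a + b) ∧ AlgebraicIndependent Ω ![x, y] ∧
      adjoin Ω ({x, y} ∪ Set.range w) = ⊤ ∧ aeval ![x, y] g ≠ 0 ∧
      ∀ i, (w i ^ p - w i) * aeval ![x, y] g ^ 2 = aeval ![x, y] (f i)) :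
    NoTate T K ∧ (⊤ : IntermediateField Ω K).FG := by
  obtain ⟨a, b, d, e, r, f, g, x, y, w, hab, hf, hg, he, hd, hind, htop, hg0, hw⟩ := hK
  let _ : Algebra (ZMod p) Ω := ZMod.algebra Ω p
  have hC : Cov p Ω x y w := by
    refine ⟨htop, hind, fun i => ?_⟩
    have h1 : w i ^ p - w i = aeval ![x, y] (f i) / aeval ![x, y] g ^ 2 := by
      rw [← hw i]
      field_simp
    have h2 : ∀ q : MvPolynomial (Fin 2) Ω, aeval ![x, y] q ∈ adjoin Ω {x, y} := by
      intro q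
      have h3 : aeval ![x, y] q ∈ Algebra.adjoin Ω (Set.range ![x, y]) :=
        Algebra.adjoin_range_eq_range_aeval Ω ![x, y] ▸ ⟨q, rfl⟩
      have h4 : Set.range ![x, y] = {x, y} := by
        rw [Matrix.range_cons, Matrix.range_cons, Matrix.range_empty, Set.union_empty]
        rfl
      rw [h4] at h3
      exact algebra_adjoin_le_adjoin Ω _ h3
    rw [h1]
    exact div_mem (h2 _) (pow_mem (h2 _) 2)
  exact ⟨hC.noTate T (aux_prime p) (geo_comb hab hf hg he hd hg0 hw)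
    (wildCurve_aux T.toBaseTheory), hC.fg⟩

end Pool.Agent.Helper35.WW
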